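import Mathlib
import Pool.Agent.H22.OmegaDefs

set_option autoImplicit false

namespace Pool.Agent.Results.MP_3dda3d_al.Counterexample

open Pool.Agent.H22.Omega

inductive S0 : ℕ → Type
  | mul : S0 2

inductive S1 : ℕ → Type
  | mul : S1 2
  | ext : S1 2

def incl : ∀ n, S0 n ↪ S1 n := fun _ =>
  ⟨fun ω => match ω with | .mul => .mul, fun a b _ => by cases a; cases b; rfl⟩

abbrev K := ZMod 2
abbrev W := K × K × K

def m (x y : W) : W := (0, 0, x.1 * y.2.1 - x.2.1 * y.1)
def e (c : K) (x y : W) : W := (0, 0, x.1 * y.1 + c * x.2.1 * y.2.1)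

def mL : W →ₗ[K] W →ₗ[K] W :=
  LinearMap.mk₂ K m (by decide) (by decide) (by decide) (by decide)
def eL (c : K) : W →ₗ[K] W →ₗ[K] W :=
  LinearMap.mk₂ K (e c) (by revert c; decide) (by revert c; decide) (by revert c; decide)
    (by revert c; decide)

def alg (c : K) : OAlg K S1 W :=
  ⟨fun _ ω => match ω with | .mul => bil mL | .ext => bil (eL c)⟩

theorem eval_mul (c : K) (x : ℕ → W) (s : Fin 2 → Term S1) :
    (Term.app 2 S1.mul s).eval (alg c) x = m ((s 0).eval (alg c) x) ((s 1).eval (alg c) x) := rfl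
theorem eval_ext (c : K) (x : ℕ → W) (s : Fin 2 → Term S1) :
    (Term.app 2 S1.ext s).eval (alg c) x = e c ((s 0).eval (alg c) x) ((s 1).eval (alg c) x) :=
  rfl

def zp : W →ₗ[K] W where
  toFun w := (0, 0, w.2.2)
  map_add' := by decide
  map_smul' := by decide

theorem transfer (c d : K) (g : W → W) (h0 : ∀ z, zp (g z) = 0) (h1 : ∀ z, g (0, 0, z) = 0)
    (h2 : ∀ a b a' b' : W, a' - zp a' = g a → b' - zp b' = g b →
      m (a + zp a') (b + zp b') = m a b + zp (m a' b') ∧
      e d (a + zp a') (b + zp b') = e c a b + zp (e c a' b'))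
    (f : Term S1 →₀ K) (hf : f ∈ Ids (alg c)) : f ∈ Ids (alg d) := by
  intro x
  have key : ∀ t : Term S1, t.eval (alg c) (g ∘ x) - zp (t.eval (alg c) (g ∘ x)) =
      g (t.eval (alg c) x) ∧
      t.eval (alg d) x = t.eval (alg c) x + zp (t.eval (alg c) (g ∘ x)) := by
    intro t
    induction t with
    | var i => simp [Term.eval, h0]
    | app n ω s ih =>
      cases ω
      · rw [eval_mul, eval_mul, eval_mul, (ih 0).2, (ih 1).2]
        exact ⟨by rw [m, m, h1]; simp [zp], (h2 _ _ _ _ (ih 0).1 (ih 1).1).1⟩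
      · rw [eval_ext, eval_ext, eval_ext, (ih 0).2, (ih 1).2]
        exact ⟨by rw [e, e, h1]; simp [zp], (h2 _ _ _ _ (ih 0).1 (ih 1).1).2⟩
  have h3 : evalP (alg d) x f = evalP (alg c) x f + zp (evalP (alg c) (g ∘ x) f) := by
    simp only [evalP, Finsupp.sum, map_sum, map_smul, ← Finset.sum_add_distrib, ← smul_add,
      ← (key _).2]
  rw [h3, hf, hf, map_zero, add_zero]

theorem crit (c : K) : Critical (reduct incl (alg c)) := by
  have hev : ∀ x : ℕ → W, evalP (reduct incl (alg c)) x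
      (Finsupp.single (Term.app 2 S0.mul fun i => Term.var i) 1) = m (x 0) (x 1) := by
    intro x
    rw [evalP, Finsupp.sum_single_index (by simp), one_smul]
    rfl
  refine ⟨Finsupp.single (Term.app 2 S0.mul fun i => Term.var i) 1, fun h => ?_, ?_⟩
  · have := h fun i => if i = 0 then (1, 0, 0) else (0, 1, 0)
    rw [hev] at this
    revert this
    decide
  · intro R I hR hI hne x hx
    rw [hev]
    by_cases h0 : m (x 0) (x 1) = 0
    · rw [h0]; exact I.zero_mem
    have hm : m (x 0) (x 1) ∈ R := hR 2 S0.mul ![x 0, x 1] (by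
      intro i; fin_cases i <;> exact hx _)
    have hT : R = ⊤ := by
      have : ∀ a b w : W, m a b ≠ 0 → ∃ p q r : K, w = p • a + q • b + r • m a b := by decide
      rw [eq_top_iff]
      intro w _
      obtain ⟨p, q, r, rfl⟩ := this _ _ w h0
      exact R.add_mem (R.add_mem (R.smul_mem _ (hx 0)) (R.smul_mem _ (hx 1))) (R.smul_mem _ hm)
    obtain ⟨u, hu, hu0⟩ := (Submodule.ne_bot_iff I).1 fun h => hne ⟨hT, h⟩
    have : ∀ a b u : W, m a b ≠ 0 → u ≠ 0 → m a b = u ∨ ∃ w, m a b = m u w := by decide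
    rcases this _ _ u h0 hu0 with h | ⟨w, h⟩
    · rw [h]; exact hu
    · rw [h]
      exact hI.2 2 S0.mul ![u, w] (by rw [hT]; intro i; trivial) ⟨0, hu⟩

/-- Two finite algebras with isomorphic critical reducts and the same identities in the larger
signature that are not isomorphic. -/
theorem result : ∃ (k : Type) (_ : CommRing k) (Ω Ω' : ℕ → Type) (ι : ∀ n, Ω n ↪ Ω' n)
    (A : Type) (_ : AddCommGroup A) (_ : Module k A) (B : Type) (_ : AddCommGroup B)
    (_ : Module k B) (𝒜 : OAlg k Ω' A) (ℬ : OAlg k Ω' B),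
    (∃ n, 2 ≤ n ∧ Nonempty (Ω n)) ∧ Finite A ∧ Finite B ∧ Iso (reduct ι 𝒜) (reduct ι ℬ) ∧
    Critical (reduct ι 𝒜) ∧ Critical (reduct ι ℬ) ∧ Ids 𝒜 = Ids ℬ ∧ ¬ Iso 𝒜 ℬ := by
  refine ⟨K, inferInstance, S0, S1, incl, W, inferInstance, inferInstance, W, inferInstance,
    inferInstance, alg 0, alg 1, ⟨2, le_rfl, ⟨.mul⟩⟩, inferInstance, inferInstance,
    ⟨LinearEquiv.refl _ _, fun n ω a => by cases ω; rfl⟩, crit 0, crit 1, ?_, ?_⟩
  · ext f
    exact ⟨transfer 0 1 (fun w => (w.2.1, 0, 0)) (by decide) (by decide) (by decide +kernel) f,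
      transfer 1 0 (fun w => (0, w.2.1, 0)) (by decide) (by decide) (by decide +kernel) f⟩
  · rintro ⟨φ, hφ⟩
    have h1 : ∀ a b, φ (m a b) = m (φ a) (φ b) := fun a b => hφ 2 .mul ![a, b]
    have h2 : ∀ a b, φ (e 0 a b) = e 1 (φ a) (φ b) := fun a b => hφ 2 .ext ![a, b]
    have h3 : ∀ u : W, (∀ y, e 1 u y = 0) → ∀ y, m u y = 0 := by decide
    have h4 := h3 (φ (0, 1, 0)) (fun y => by
      obtain ⟨y, rfl⟩ := φ.surjective y
      rw [← h2, show e 0 (0, 1, 0) y = 0 by revert y; decide, map_zero]) (φ (1, 0, 0))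
    rw [← h1, φ.map_eq_zero_iff] at h4
    revert h4
    decide

end Pool.Agent.Results.MP_3dda3d_al.Counterexample
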